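import Pool.Agent.H493.EN.Ins

set_option autoImplicit false

/-!
# The entropy principle for the zeros of zeta

No hypothesis is made on the zeros of zeta: `γ` runs over the ordinates of all the nontrivial zeros, with
multiplicity.  The zeros near the height `t` are observed through test functions `f_1, ..., f_k` of class `C²` with
compact support at the scale `s`: `X_s(t)` is the vector of the sums `∑ f_j((γ - t)/s)`, centred by the mean density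
`log T / 2π`, and `N` is the Gaussian vector with the covariance `(1/2π²) ∫_0^∞ ξ Re (f̂_i conj f̂_j) dξ`.

All the statements are uniform in the scale: for every `ε > 0` there is `K` such that they hold for all `T ≥ K` and
all `s` with `K/log T ≤ s ≤ 1/K`.  So the windows may contain a bounded number of zeros on average.

1. Exponential inequality.  Let `ψ` be `L`-Lipschitz.  For any finite set `P` of sequences of complex numbers of
   modulus at most `1`, the measure of the `t` in `[T, 2T]` for which one of the sequences `p` in `P` correlates with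
   the fluctuations at the `M` consecutive points, `|∑_{m<M} p_m (ψ(X_s(t + ms)) - E ψ(N))| ≥ εM`, is at most
   `5 |P| exp(-ε²M/(32π²L²Λ)) T`, where `Λ` depends only on the test functions.
2. Entropy bound.  If `θ`, `|θ| ≤ 1`, follows at most `exp(κM)` patterns of length `M` (up to a small error), then
   `|∫_T^{2T} θ(t) (ψ(X_s(t)) - E ψ(N)) dt| ≤ (√(32π²Λκ) L + ε) T`.
3. Zero entropy.  For continuous `ψ` of at most quadratic growth (for instance `ψ(x) = x_i x_j`) the integral is at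
   most `εT` if `κ` is small.
4. Systems of zero entropy.  Let `Q` be a map of a compact metric space `Y`, of zero topological entropy, and let
   `F : Y → ℂ` be continuous.  Then the sum over consecutive windows of `[T, 2T]` of the absolute values of
   `∫ F(Q^⌊t/s⌋ y) (ψ(X_s(t)) - E ψ(N)) dt` is at most `εT`, with a new point `y` in every window; the mean length of the
   windows has to be at least `K s`.
5. Arithmetic progressions.  For almost all offsets `x` the sum over `T ≤ ns`, `(n+1)s ≤ 2T` of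
   `F(Q^n y) (ψ(X_s((n + x)s)) - E ψ(N))` is at most `ε T/s` in absolute value (in the mean over `x ∈ [0,1]`).
6. Slowly varying functions.  If `∫_T^{2T} |θ(t + s) - θ(t)| dt ≤ T/K` then
   `|∫_T^{2T} θ(t) (ψ(X_s(t)) - E ψ(N)) dt| ≤ εT`.
-/

open Complex Filter Topology Set MeasureTheory ProbabilityTheory
open scoped NNReal

namespace Pool.Agent.Results.MP_8958e8_nt.EntropyPrinciple

/-- the nontrivial zeros of zeta -/
def zeros : Set ℂ := {s : ℂ | riemannZeta s = 0 ∧ 0 < s.re ∧ s.re < 1}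

/-- multiplicity of a zero of zeta -/
noncomputable def mult (s : ℂ) : ℕ := analyticOrderNatAt riemannZeta s

/-- the linear statistic `∑_γ f((γ - t)/s)`, centred by the mean density `log T / 2π` -/
noncomputable def lin (f : ℝ → ℝ) (s T t : ℝ) : ℝ :=
  (∑ᶠ z ∈ zeros, (mult z : ℝ) * f ((z.im - t) / s)) - s * Real.log T / (2 * Real.pi) * ∫ x : ℝ, f x

/-- the vector of the linear statistics at the scale `s` -/
noncomputable def field {k : ℕ} (f : Fin k → ℝ → ℝ) (s T t : ℝ) : EuclideanSpace ℝ (Fin k) :=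
  WithLp.toLp 2 fun j => lin (f j) s T t

/-- the Fourier transform `∫ f(x) e^{-iξx} dx` -/
noncomputable def ft (f : ℝ → ℝ) (ξ : ℝ) : ℂ := ∫ x : ℝ, (f x : ℂ) * cexp (-(((ξ * x : ℝ) : ℂ) * I))

/-- the limiting covariance -/
noncomputable def cov (f g : ℝ → ℝ) : ℝ :=
  1 / (2 * Real.pi ^ 2) * ∫ ξ in Ioi (0 : ℝ), ξ * (ft f ξ * (starRingEnd ℂ) (ft g ξ)).re

/-- the limiting covariance matrix -/
noncomputable def covMatrix {k : ℕ} (f : Fin k → ℝ → ℝ) : Matrix (Fin k) (Fin k) ℝ :=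
  Matrix.of fun i j => cov (f i) (f j)

/-- the Gaussian law with this covariance matrix -/
noncomputable def gauss {k : ℕ} (f : Fin k → ℝ → ℝ) : Measure (EuclideanSpace ℝ (Fin k)) :=
  multivariateGaussian 0 (covMatrix f)

/-- the fluctuation `ψ(X_s(t)) - E ψ(N)` -/
noncomputable def fluct {k : ℕ} (f : Fin k → ℝ → ℝ) (ψ : EuclideanSpace ℝ (Fin k) → ℝ) (s T t : ℝ) : ℝ :=
  ψ (field f s T t) - ∫ x, ψ x ∂(gauss f)

/-- `R T s` holds for all large `T` and all scales `s` with `K/log T ≤ s ≤ 1/K` -/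
def Mesoscopic (R : ℝ → ℝ → Prop) : Prop :=
  ∃ K : ℝ, 1 ≤ K ∧ ∀ T : ℝ, K ≤ T → ∀ s : ℝ, K ≤ s * Real.log T → s ≤ 1 / K → R T s

/-- outside a set of measure at most `δT`, the values `θ(t), θ(t + s), ..., θ(t + (M-1)s)` are at mean distance at
most `δ` from one of at most `exp(κM)` sequences -/
def Follows (T s : ℝ) (M : ℕ) (κ δ : ℝ) (θ : ℝ → ℂ) : Prop :=
  ∃ (P : Finset (ℕ → ℂ)) (E : Set ℝ), (P.card : ℝ) ≤ Real.exp (κ * M) ∧ (∀ p ∈ P, ∀ m, ‖p m‖ ≤ 1) ∧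
    volume E ≤ ENNReal.ofReal (δ * T) ∧ ∀ t ∈ Icc T (2 * T), t ∉ E →
      ∃ p ∈ P, ∑ m ∈ Finset.range M, ‖θ (t + m * s) - p m‖ ≤ δ * M

/-- zero topological entropy (Bowen): for every `ε > 0` and every `κ > 0`, the orbits of length `M` are within `ε` of
at most `exp(κM)` orbits if `M` is large -/
def ZeroEntropy {Y : Type} [MetricSpace Y] (Q : Y → Y) : Prop :=
  ∀ ε κ : ℝ, 0 < ε → 0 < κ → ∃ M₀ : ℕ, ∀ M : ℕ, M₀ ≤ M → ∃ A : Finset Y, (A.card : ℝ) ≤ Real.exp (κ * M) ∧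
    ∀ y : Y, ∃ b ∈ A, ∀ m < M, dist (Q^[m] y) (Q^[m] b) ≤ ε

lemma fluct_eq {k : ℕ} (f : Fin k → ℝ → ℝ) (ψ : EuclideanSpace ℝ (Fin k) → ℝ) {s : ℝ} (hs : 0 < s) (T t : ℝ) :
    Pool.Agent.H493.EN.Yg (Pool.Agent.H493.EN.Xs f) (Pool.Agent.H493.EN.CM f) ψ s T t = fluct f ψ s T t := by
  have h1 : Pool.Agent.H493.EN.Xs f s T t = field f s T t := by
    unfold Pool.Agent.H493.EN.Xs Pool.Agent.H203.ME.Xv field
    congr 1
    funext j
    exact Pool.Agent.H203.ME.FINL.XF_scale (f j) hs T t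
  unfold Pool.Agent.H493.EN.Yg fluct
  rw [h1]
  rfl

lemma pos_of {K T s : ℝ} (hK : 1 ≤ K) (hT : K ≤ T) (h : K ≤ s * Real.log T) : 0 < s := by
  by_contra h1
  push Not at h1
  have h2 : 0 ≤ Real.log T := Real.log_nonneg (hK.trans hT)
  nlinarith

/-- **The entropy principle for the zeros of zeta.** -/
theorem result {k : ℕ} (f : Fin k → ℝ → ℝ) (hf : ∀ j, ContDiff ℝ 2 (f j)) (hs : ∀ j, HasCompactSupport (f j)) :
    (covMatrix f).PosSemidef ∧ ∃ Λ : ℝ, 0 < Λ ∧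
    -- 1. exponential inequality
    (∀ (ψ : EuclideanSpace ℝ (Fin k) → ℝ) (L : ℝ≥0), 0 < L → LipschitzWith L ψ →
      ∀ (M : ℕ) (ε : ℝ), 1 ≤ M → 0 < ε → Mesoscopic fun T s =>
      ∀ P : Finset (ℕ → ℂ), (∀ p ∈ P, ∀ m, ‖p m‖ ≤ 1) → volume {t | t ∈ Icc T (2 * T) ∧ ∃ p ∈ P,
        ε * M ≤ ‖∑ m ∈ Finset.range M, p m * (fluct f ψ s T (t + m * s) : ℂ)‖} ≤
      ENNReal.ofReal (5 * P.card * Real.exp (-(ε ^ 2 * M / (32 * Real.pi ^ 2 * L ^ 2 * Λ))) * T)) ∧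
    -- 2. entropy bound
    (∀ (ψ : EuclideanSpace ℝ (Fin k) → ℝ) (L : ℝ≥0), 0 < L → LipschitzWith L ψ →
      ∀ κ ε : ℝ, 0 ≤ κ → 0 < ε → ∃ (δ : ℝ) (M₀ : ℕ), 0 < δ ∧ ∀ M : ℕ, M₀ ≤ M → Mesoscopic fun T s =>
      ∀ θ : ℝ → ℂ, Measurable θ → (∀ t, ‖θ t‖ ≤ 1) → Follows T s M κ δ θ →
        ‖∫ t in T..(2 * T), θ t * (fluct f ψ s T t : ℂ)‖ ≤ (L * Real.sqrt (32 * Real.pi ^ 2 * Λ * κ) + ε) * T) ∧
    -- 3. zero entropy
    (∀ (ψ : EuclideanSpace ℝ (Fin k) → ℝ) (C : ℝ), Continuous ψ → (∀ x, |ψ x| ≤ C * (1 + ‖x‖ ^ 2)) →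
      ∀ ε : ℝ, 0 < ε → ∃ (κ δ : ℝ) (M₀ : ℕ), 0 < κ ∧ 0 < δ ∧ ∀ M : ℕ, M₀ ≤ M → Mesoscopic fun T s =>
      ∀ θ : ℝ → ℂ, Measurable θ → (∀ t, ‖θ t‖ ≤ 1) → Follows T s M κ δ θ →
        ‖∫ t in T..(2 * T), θ t * (fluct f ψ s T t : ℂ)‖ ≤ ε * T) ∧
    -- 4. systems of zero entropy, with a new point on every window
    (∀ (ψ : EuclideanSpace ℝ (Fin k) → ℝ) (C : ℝ), Continuous ψ → (∀ x, |ψ x| ≤ C * (1 + ‖x‖ ^ 2)) →
      ∀ (Y : Type) [MetricSpace Y] [CompactSpace Y] (Q : Y → Y), ZeroEntropy Q → ∀ F : Y → ℂ, Continuous F →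
      ∀ ε : ℝ, 0 < ε → ∃ K : ℝ, 1 ≤ K ∧ ∀ T : ℝ, K ≤ T → ∀ s : ℝ, K ≤ s * Real.log T → s ≤ 1 / K →
      ∀ (n : ℕ) (a : ℕ → ℝ) (y : ℕ → Y), K * (n * s) ≤ T → T ≤ a 0 → a n ≤ 2 * T → (∀ i < n, a i ≤ a (i + 1)) →
        ∑ i ∈ Finset.range n, ‖∫ t in (a i)..(a (i + 1)), F (Q^[⌊t / s⌋₊] (y i)) * (fluct f ψ s T t : ℂ)‖ ≤
          ε * T) ∧
    -- 5. systems of zero entropy, along arithmetic progressions
    (∀ (ψ : EuclideanSpace ℝ (Fin k) → ℝ) (C : ℝ), Continuous ψ → (∀ x, |ψ x| ≤ C * (1 + ‖x‖ ^ 2)) →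
      ∀ (Y : Type) [MetricSpace Y] [CompactSpace Y] (Q : Y → Y), ZeroEntropy Q → ∀ F : Y → ℂ, Continuous F →
      ∀ ε : ℝ, 0 < ε → Mesoscopic fun T s => ∀ y : Y,
        ∫ x in (0 : ℝ)..1, ‖∑ n ∈ Finset.Ico ⌈T / s⌉₊ ⌊2 * T / s⌋₊,
          F (Q^[n] y) * (fluct f ψ s T ((n + x) * s) : ℂ)‖ ≤ ε * (T / s)) ∧
    -- 6. slowly varying functions
    (∀ (ψ : EuclideanSpace ℝ (Fin k) → ℝ) (C : ℝ), Continuous ψ → (∀ x, |ψ x| ≤ C * (1 + ‖x‖ ^ 2)) →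
      ∀ ε : ℝ, 0 < ε → ∃ K : ℝ, 1 ≤ K ∧ ∀ T : ℝ, K ≤ T → ∀ s : ℝ, K ≤ s * Real.log T → s ≤ 1 / K →
      ∀ θ : ℝ → ℂ, Measurable θ → (∀ t, ‖θ t‖ ≤ 1) → ∫ t in T..(2 * T), ‖θ (t + s) - θ t‖ ≤ T / K →
        ‖∫ t in T..(2 * T), θ t * (fluct f ψ s T t : ℂ)‖ ≤ ε * T) := by
  obtain ⟨Λ, hG⟩ := Pool.Agent.H493.EN.ins_Gs hf hs
  have hX := Pool.Agent.H493.EN.ins_Fam hf hs
  refine ⟨hG.psd1, Λ, hG.lam, ?_, ?_, ?_, ?_, ?_, ?_⟩
  · intro ψ L hL hψ M ε hM hε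
    obtain ⟨K, hK, h1⟩ := Pool.Agent.H493.EN.expoU hG hX hM hL hψ hε
    refine ⟨K, hK, fun T hT s hs1 hs2 => ?_⟩
    have h2 := h1 T hT s hs1 hs2
    simp only [fluct_eq f ψ (pos_of hK hT hs1)] at h2
    exact h2
  · intro ψ L hL hψ κ ε hκ hε
    obtain ⟨δ, M₀, hδ, h0⟩ := Pool.Agent.H493.EN.entU hG hX hL hψ hκ hε
    refine ⟨δ, M₀, hδ, fun M hM => ?_⟩
    obtain ⟨K, hK, h1⟩ := h0 M hM
    refine ⟨K, hK, fun T hT s hs1 hs2 => ?_⟩
    have h2 := h1 T hT s hs1 hs2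
    simp only [fluct_eq f ψ (pos_of hK hT hs1)] at h2
    exact h2
  · intro ψ C hψ hC ε hε
    obtain ⟨κ, δ, M₀, hκ, hδ, h0⟩ := Pool.Agent.H493.EN.zeroU hG hX hψ hC hε
    refine ⟨κ, δ, M₀, hκ, hδ, fun M hM => ?_⟩
    obtain ⟨K, hK, h1⟩ := h0 M hM
    refine ⟨K, hK, fun T hT s hs1 hs2 => ?_⟩
    have h2 := h1 T hT s hs1 hs2
    simp only [fluct_eq f ψ (pos_of hK hT hs1)] at h2
    exact h2
  · intro ψ C hψ hC Y _ _ Q hQ F hF ε hε
    obtain ⟨K, hK, h1⟩ := Pool.Agent.H493.EN.momoU hG hX hψ hC hQ hF hε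
    refine ⟨K, hK, fun T hT s hs1 hs2 => ?_⟩
    have h2 := h1 T hT s hs1 hs2
    simp only [fluct_eq f ψ (pos_of hK hT hs1)] at h2
    exact h2
  · intro ψ C hψ hC Y _ _ Q hQ F hF ε hε
    obtain ⟨K, hK, h1⟩ := Pool.Agent.H493.EN.offU hG hX hψ hC hQ hF hε
    refine ⟨K, hK, fun T hT s hs1 hs2 => ?_⟩
    have h2 := h1 T hT s hs1 hs2
    simp only [fluct_eq f ψ (pos_of hK hT hs1)] at h2
    exact h2
  · intro ψ C hψ hC ε hε
    obtain ⟨K, hK, h1⟩ := Pool.Agent.H493.EN.slowU hG hX hψ hC hε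
    refine ⟨K, hK, fun T hT s hs1 hs2 => ?_⟩
    have h2 := h1 T hT s hs1 hs2
    simp only [fluct_eq f ψ (pos_of hK hT hs1)] at h2
    exact h2

end Pool.Agent.Results.MP_8958e8_nt.EntropyPrinciple
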