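import Pool.Agent.H606.OS.All
import Pool.Agent.H606.OS.Fin
import Pool.Agent.H606.OS.Cpt2
import Pool.Agent.H606.OS.P.LOW
import Pool.Agent.H606.OS.P.OPT
import Pool.Agent.H606.OS.P.DGW

open MeasureTheory Filter Topology

namespace Pool.Agent.Results.MP_8958e8_nt.OneSidedPairCorrelation

/-- multiplicity of `s` as a zero of the Riemann zeta function (order of vanishing at `s`) -/
noncomputable def zmult (s : ℂ) : ℕ := analyticOrderNatAt riemannZeta s

/-- the number of nontrivial zeros of `ζ` with ordinate in `(0, t]`, with multiplicity -/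
noncomputable def NZ (t : ℝ) : ℕ :=
  ∑ᶠ s ∈ {s : ℂ | riemannZeta s = 0 ∧ 0 < s.re ∧ s.re < 1 ∧ 0 < s.im ∧ s.im ≤ t}, zmult s

/-- for `n ≥ 1`: the `n`-th positive ordinate `γ n` of a nontrivial zero of `ζ` (on or off the
critical line), the ordinates being listed in nondecreasing order and repeated according to
multiplicity -/
noncomputable def γ (n : ℕ) : ℝ := sInf {t : ℝ | n ≤ NZ t}

/-- the number of ordered pairs of ordinates `γ, γ'` in `(0, T]` (with multiplicity) with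
`(γ - γ') log T / 2π ∈ S` -/
noncomputable def pairs (T : ℝ) (S : Set ℝ) : ℕ :=
  {q : ℕ × ℕ | (1 ≤ q.1 ∧ γ q.1 ≤ T) ∧ (1 ≤ q.2 ∧ γ q.2 ≤ T) ∧
    (γ q.1 - γ q.2) * Real.log T / (2 * Real.pi) ∈ S}.ncard

/-- `N(T; α, β)` of the problem, divided by `(T / 2π) log T` -/
noncomputable def N2 (T α β : ℝ) : ℝ := pairs T (Set.Icc α β) / (T * Real.log T / (2 * Real.pi))

/-- the pair correlation function `1 - (sin πu / πu)²` -/
noncomputable def F (u : ℝ) : ℝ := 1 - (Real.sin (Real.pi * u) / (Real.pi * u)) ^ 2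

/-- the conjecture Q1 along the filter `l` -/
def PCC (l : Filter ℝ) : Prop := ∀ α β : ℝ, 0 < α → α < β →
  Tendsto (fun T => N2 T α β) l (𝓝 (∫ u in α..β, F u))

/-- its upper half along `l`, for the distances at least `A` -/
def Upper (l : Filter ℝ) (A : ℝ) : Prop := ∀ α β : ℝ, A ≤ α → α < β → ∀ ε : ℝ, 0 < ε →
  ∀ᶠ T in l, N2 T α β ≤ (∫ u in α..β, F u) + ε

/-- its lower half along `l`, for the distances at least `A` -/
def Lower (l : Filter ℝ) (A : ℝ) : Prop := ∀ α β : ℝ, A ≤ α → α < β → ∀ ε : ℝ, 0 < ε →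
  ∀ᶠ T in l, (∫ u in α..β, F u) - ε ≤ N2 T α β

/-- the number of simple zeros on the critical line with ordinate in `(0, T]` -/
noncomputable def Nsc (T : ℝ) : ℕ :=
  {s : ℂ | riemannZeta s = 0 ∧ s.re = 1 / 2 ∧ 0 < s.im ∧ s.im ≤ T ∧ zmult s = 1}.ncard

theorem pcc_upper {l : Filter ℝ} (h : PCC l) : ∀ A : ℝ, 0 < A → Upper l A := by
  intro A hA α β h1 h2 ε hε
  exact ((h α β (hA.trans_le h1) h2).eventually (gt_mem_nhds (lt_add_of_pos_right _ hε))).mono
    fun T hT => le_of_lt hT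

theorem pcc_lower {l : Filter ℝ} (h : PCC l) : ∀ A : ℝ, 0 < A → Lower l A := by
  intro A hA α β h1 h2 ε hε
  exact ((h α β (hA.trans_le h1) h2).eventually (lt_mem_nhds (sub_lt_self _ hε))).mono
    fun T hT => le_of_lt hT

/-- the first three parts -/
theorem main1 :
    (∀ l : Filter ℝ, l ≤ atTop → ((∀ A : ℝ, 0 < A → Upper l A) ∨ (∀ A : ℝ, 0 < A → Lower l A)) →
      PCC l ∧
      Tendsto (fun T => (pairs T {0} : ℝ) / (T * Real.log T / (2 * Real.pi))) l (𝓝 1) ∧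
      (∀ β : ℝ, 0 < β →
        Tendsto (fun T => (pairs T (Set.Ioc 0 β) : ℝ) / (T * Real.log T / (2 * Real.pi))) l
          (𝓝 (∫ u in (0 : ℝ)..β, F u))) ∧
      Tendsto (fun T => (Nsc T : ℝ) / NZ T) l (𝓝 1)) ∧
    ∃ C : ℝ, 0 < C ∧ ∀ l : Filter ℝ, l ≤ atTop → ∀ A : ℝ, 0 < A → Upper l A →
      ∀ α β : ℝ, A ≤ α → α < β → ∀ ε : ℝ, 0 < ε → ∀ᶠ T in l,
        (∫ u in α..β, F u) - C * A ^ 2 * (1 + A) / α ^ 2 - ε ≤ N2 T α β := by
  obtain ⟨C1, hC1, q1, q2, q3, q4, D, hD⟩ := Pool.Agent.H606.OS.zeta_cg Pool.Agent.H606.OS.p_GK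
    Pool.Agent.H606.OS.p_L2K Pool.Agent.H606.OS.p_NICE Pool.Agent.H606.OS.p_N1G
    Pool.Agent.H606.OS.p_N2G
  have hpc : ∀ T α β, Pool.Agent.H606.OS.pc (D.x T) (D.R T) α β = N2 T α β := by
    intro T α β
    subst hD
    exact Pool.Agent.H606.OS.pc_eq T α β
  have hp0 : ∀ T β, Pool.Agent.H606.OS.p0 (D.x T) (D.R T) β =
      (pairs T (Set.Ioc 0 β) : ℝ) / (T * Real.log T / (2 * Real.pi)) := by
    intro T β
    subst hD
    exact Pool.Agent.H606.OS.p0_eq T β
  have hdg : ∀ T, Pool.Agent.H606.OS.dg (D.x T) (D.R T) =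
      (pairs T {0} : ℝ) / (T * Real.log T / (2 * Real.pi)) := by
    intro T
    subst hD
    exact Pool.Agent.H606.OS.dg_eq T
  have hup : ∀ l A, Upper l A ↔ Pool.Agent.H606.OS.UpA D l A := by
    intro l A
    unfold Upper Pool.Agent.H606.OS.UpA
    simp_rw [hpc]
    rfl
  have hlo : ∀ l A, Lower l A ↔ Pool.Agent.H606.OS.LoA D l A := by
    intro l A
    unfold Lower Pool.Agent.H606.OS.LoA
    simp_rw [hpc]
    rfl
  obtain ⟨C, hC, hB1⟩ := Pool.Agent.H606.OS.p_B1 C1 hC1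
  refine ⟨fun l hl H => ?_, C, hC, fun l hl A hA hU α β h1 h2 ε hε => ?_⟩
  · -- the lower half holds in both cases
    have hL : ∀ A : ℝ, 0 < A → Lower l A := by
      rcases H with H | H
      · intro A hA α β h1 h2 ε hε
        have hα : 0 < α := hA.trans_le h1
        -- choose `A'` small
        obtain ⟨A', hA', hA'α, hA's⟩ : ∃ A' : ℝ, 0 < A' ∧ A' ≤ α ∧
            C * A' ^ 2 * (1 + A') / α ^ 2 ≤ ε / 2 := by
          have ht : Tendsto (fun A' : ℝ => C * A' ^ 2 * (1 + A') / α ^ 2) (𝓝 0)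
              (𝓝 (C * 0 ^ 2 * (1 + 0) / α ^ 2)) := by
            apply Continuous.tendsto
            fun_prop
          have e : C * 0 ^ 2 * (1 + 0) / α ^ 2 = 0 := by simp
          rw [e] at ht
          have h3 := (ht.eventually (ge_mem_nhds (half_pos hε))).filter_mono
            (nhdsWithin_le_nhds (s := Set.Ioi 0))
          have h4 : ∀ᶠ A' : ℝ in 𝓝[>] 0, 0 < A' := eventually_mem_nhdsWithin
          have h5 : ∀ᶠ A' : ℝ in 𝓝[>] 0, A' ≤ α :=
            Filter.Eventually.filter_mono nhdsWithin_le_nhds (Iic_mem_nhds hα)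
          obtain ⟨A', a1, a2, a3⟩ := (h3.and (h4.and h5)).exists
          exact ⟨A', a2, a3, a1⟩
        have h6 := hB1 D l hl A' hA' ((hup l A').1 (H A' hA')) α β hA'α h2 (ε / 2) (half_pos hε)
        filter_upwards [h6] with T h7
        rw [hpc] at h7
        have e2 : (∫ u in α..β, Pool.Agent.H606.OS.Fg u) = ∫ u in α..β, F u := rfl
        rw [e2] at h7
        linarith
      · exact H
    have hL' : ∀ A : ℝ, 0 < A → Pool.Agent.H606.OS.LoA D l A := fun A hA => (hlo l A).1 (hL A hA)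
    have hdg1 := Pool.Agent.H606.OS.p_B2 C1 D l hC1 hl hL'
    obtain ⟨hU1, hp1⟩ := Pool.Agent.H606.OS.p_B3 C1 D l hC1 hl hL'
    simp_rw [hdg] at hdg1
    simp_rw [hp0] at hp1
    refine ⟨?_, hdg1, hp1, ?_⟩
    · intro α β hα hαβ
      have hUα := (hup l α).2 (hU1 α hα)
      rw [Metric.tendsto_nhds]
      intro ε hε
      filter_upwards [hL α hα α β le_rfl hαβ (ε / 2) (half_pos hε),
        hUα α β le_rfl hαβ (ε / 2) (half_pos hε)] with T h3 h4
      rw [Real.dist_eq, abs_lt]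
      constructor <;> linarith
    · exact Pool.Agent.H606.OS.nsc_lim hl hdg1
  · have h6 := hB1 D l hl A hA ((hup l A).1 hU) α β h1 h2 ε hε
    filter_upwards [h6] with T h7
    rw [hpc] at h7
    exact h7

/-- **One-sided pair correlation without the Riemann hypothesis.**
Let `l` be a filter of heights (for instance `T → ∞`, or a sequence).
(1) Montgomery's conjecture (along `l`) is equivalent to its upper half alone, and to its lower half
alone (for all `0 < α < β`, along `l`).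
(2) So each half implies: the number of the pairs of equal ordinates (the pairs of an ordinate with
itself included) is `∼ (T / 2π) log T`, there are no extra pairs at small distances, and
`100` percent of the zeros are simple and on the critical line.
(3) The upper half for the distances `≥ A` only implies the lower half up to an error
`C A² (1 + A) / α²`.
(4) Single heights and finite windows: for every `ε > 0` there is a `δ > 0` such that for every
single height `T ≥ 1/δ` one of the halves in the window `[δ, 1/δ]`, up to the error `δ`, implies the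
conjecture up to `ε` for all distances in `(0, 1/ε]` at the same height, and that all but `ε NZ(T)`
of the zeros up to `T` are simple and on the critical line.
(5) The lower half in a window `[A, B]` with the relative loss `δ` (along `l`) implies that the
proportion of the zeros that are simple and on the critical line is at least
`1 - C (A³ + B^(-1/2) + δ^(2/3))`. -/
theorem result :
    (∀ l : Filter ℝ, l ≤ atTop →
      (PCC l ↔ ∀ A : ℝ, 0 < A → Upper l A) ∧ (PCC l ↔ ∀ A : ℝ, 0 < A → Lower l A) ∧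
      (PCC l →
        Tendsto (fun T => (pairs T {0} : ℝ) / (T * Real.log T / (2 * Real.pi))) l (𝓝 1) ∧
        (∀ β : ℝ, 0 < β →
          Tendsto (fun T => (pairs T (Set.Ioc 0 β) : ℝ) / (T * Real.log T / (2 * Real.pi))) l
            (𝓝 (∫ u in (0 : ℝ)..β, F u))) ∧
        Tendsto (fun T => (Nsc T : ℝ) / NZ T) l (𝓝 1))) ∧
    (∃ C : ℝ, 0 < C ∧ ∀ l : Filter ℝ, l ≤ atTop → ∀ A : ℝ, 0 < A → Upper l A →
      ∀ α β : ℝ, A ≤ α → α < β → ∀ ε : ℝ, 0 < ε → ∀ᶠ T in l,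
        (∫ u in α..β, F u) - C * A ^ 2 * (1 + A) / α ^ 2 - ε ≤ N2 T α β) ∧
    (∀ ε : ℝ, 0 < ε → ∃ δ : ℝ, 0 < δ ∧ ∀ T : ℝ, 1 / δ ≤ T →
      ((∀ α β : ℝ, δ ≤ α → α < β → β ≤ 1 / δ → N2 T α β ≤ (1 + δ) * (∫ u in α..β, F u) + δ) ∨
        (∀ α β : ℝ, δ ≤ α → α < β → β ≤ 1 / δ → (1 - δ) * (∫ u in α..β, F u) - δ ≤ N2 T α β)) →
      (∀ α β : ℝ, 0 < α → α < β → β ≤ 1 / ε → |N2 T α β - ∫ u in α..β, F u| ≤ ε) ∧
        (pairs T {0} : ℝ) / (T * Real.log T / (2 * Real.pi)) ≤ 1 + ε ∧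
        1 - ε ≤ (Nsc T : ℝ) / NZ T) ∧
    (∃ C : ℝ, 0 < C ∧ ∀ l : Filter ℝ, l ≤ atTop → ∀ A B δ : ℝ, 0 < A → A < B → 0 ≤ δ → δ ≤ 1 →
      (∀ α β : ℝ, A ≤ α → α < β → β ≤ B → ∀ ε : ℝ, 0 < ε →
        ∀ᶠ T in l, (1 - δ) * (∫ u in α..β, F u) - ε ≤ N2 T α β) →
      ∀ ε : ℝ, 0 < ε → ∀ᶠ T in l,
        1 - C * (A ^ 3 + B ^ (-(1 / 2 : ℝ)) + δ ^ (2 / 3 : ℝ)) - ε ≤ (Nsc T : ℝ) / NZ T) := by
  refine ⟨fun l hl => ⟨⟨pcc_upper, fun h => (main1.1 l hl (Or.inl h)).1⟩,
    ⟨pcc_lower, fun h => (main1.1 l hl (Or.inr h)).1⟩,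
    fun h => (main1.1 l hl (Or.inl (pcc_upper h))).2⟩, main1.2, ?_, ?_⟩
  · refine Pool.Agent.H606.OS.cpt fun l hl H => ?_
    have H' : (∀ A : ℝ, 0 < A → Upper l A) ∨ (∀ A : ℝ, 0 < A → Lower l A) := by
      rcases H with H | H
      · exact Or.inl fun A hA α β h1 h2 ε hε => H α β (hA.trans_le h1) h2 ε hε
      · exact Or.inr fun A hA α β h1 h2 ε hε => H α β (hA.trans_le h1) h2 ε hε
    obtain ⟨_, h2, h3, h4⟩ := main1.1 l hl H'
    exact ⟨h3, h2, h4⟩
  · obtain ⟨C1, hC1, q1, q2, q3, q4, D, hD⟩ := Pool.Agent.H606.OS.zeta_cg Pool.Agent.H606.OS.p_GK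
      Pool.Agent.H606.OS.p_L2K Pool.Agent.H606.OS.p_NICE Pool.Agent.H606.OS.p_N1G
      Pool.Agent.H606.OS.p_N2G
    have hpc : ∀ T α β, Pool.Agent.H606.OS.pc (D.x T) (D.R T) α β = N2 T α β := by
      intro T α β
      subst hD
      exact Pool.Agent.H606.OS.pc_eq T α β
    have hdg : ∀ T, Pool.Agent.H606.OS.dg (D.x T) (D.R T) =
        (Pool.Agent.H606.OS.prs T {0} : ℝ) / Pool.Agent.H606.OS.Rz T := by
      intro T
      subst hD
      exact Pool.Agent.H606.OS.dg_eq T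
    obtain ⟨C, hC, h⟩ := Pool.Agent.H606.OS.prop_ge
      (Pool.Agent.H606.OS.P.DGW.t_DGW Pool.Agent.H606.OS.p_KK Pool.Agent.H606.OS.p_GUE
        Pool.Agent.H606.OS.P.LOW.t_LOW) Pool.Agent.H606.OS.P.OPT.t_OPT hC1
    refine ⟨C, hC, fun l hl A B δ hA hAB hδ hδ1 H => h D hdg l hl A B δ hA hAB hδ hδ1 ?_⟩
    intro α β h1 h2 h3 ε hε
    filter_upwards [H α β h1 h2 h3 ε hε] with T hT
    rw [hpc]
    exact hT

end Pool.Agent.Results.MP_8958e8_nt.OneSidedPairCorrelation
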