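import Pool.Agent.H479.U.Tri

/-!
# Montgomery's function beyond `α = 1` and the simple zeros on the critical line, unconditionally

No hypothesis is assumed.  Let `G(α, T)` be the unconditional form of Montgomery's function: the
normalised sum over the pairs of zeros `ρ, ρ'` (`0 < γ, γ' ≤ T`, with multiplicity) of
`T ^ (α (ρ + conj ρ' - 1))` times the weight `4 / (4 - (ρ + conj ρ' - 1)²)`; under the Riemann
hypothesis this is Montgomery's `F(α, T)`, and Montgomery's conjecture is the statement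
`F(α, T) = min(α, 1) + o(1)` for `α` bounded and bounded away from `0`.

Let `b ≥ 1`, `0 ≤ λ < 1`.  For all large `T` the proportion of the zeros with `0 < γ ≤ T` which are
simple and lie on the critical line is at least
`1 - 1 / (3 b²) - (2 / b) ∫_λ^b (1 - α / b) (Re G(α, T) - min(α, 1)) dα - ε`.
So the excess of `G` over the value conjectured by Montgomery, in the mean over `[λ, b]` with the
weight `1 - α / b`, is bounded below by the proportion of the zeros off the critical line and of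
the multiple zeros (up to `1 / (3 b²)`); an upper bound for `G` in the mean forces almost all the
zeros to be simple and to lie on the line.  The same holds for every even window `w` on
`[-1/2, 1/2]`, with `w * w (α / b)` instead of `1 - α / b`, and for the number of distinct zeros.

The idea of the proof: the upper half of Montgomery's theorem is proved without the Riemann
hypothesis for `α ≤ λ < 1` (explicit formula with Gaussian weights, then a Harnack inequality for
the sum with the weight `4 / (4 - z²)`), and the tent average of `G` is, after a Laplace average,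
the trace of the square of a matrix with an indefinite form which sees the zeros off the line.
-/

open MeasureTheory Complex

namespace Pool.Agent.Results.MP_8958e8_nt.PairCorrelationForcesLine

/-- the nontrivial zeros of `ζ` with ordinate in `(0, T]` -/
def zeros (T : ℝ) : Set ℂ :=
  {s : ℂ | 0 < s.re ∧ s.re < 1 ∧ 0 < s.im ∧ s.im ≤ T ∧ riemannZeta s = 0}

/-- the multiplicity of `s` as a zero of `ζ` -/
noncomputable def mult (s : ℂ) : ℕ := analyticOrderNatAt riemannZeta s

/-- the asymptotic number of zeros, `(T / 2π) log T` -/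
noncomputable def X (T : ℝ) : ℝ := T / (2 * Real.pi) * Real.log T

/-- Montgomery's function `F(α, T)`:
`((T/2π) log T)⁻¹ ∑_γ ∑_γ' T ^ (iα(γ - γ')) w(γ - γ')`, `w(u) = 4 / (4 + u²)`, the zeros being
counted with multiplicity -/
noncomputable def F (α T : ℝ) : ℂ :=
  ((X T : ℝ) : ℂ)⁻¹ *
    ∑ᶠ s ∈ zeros T, ∑ᶠ s' ∈ zeros T, (mult s : ℂ) * (mult s' : ℂ) *
      ((T : ℂ) ^ (I * α * ((s.im - s'.im : ℝ) : ℂ)) * (4 / (4 + ((s.im - s'.im : ℝ) : ℂ) ^ 2)))

/-- The unconditional form of Montgomery's function: `i(γ - γ')` is replaced by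
`ρ + conj ρ' - 1 = (β + β' - 1) + i(γ - γ')`. -/
noncomputable def G (α T : ℝ) : ℂ :=
  ((X T : ℝ) : ℂ)⁻¹ *
    ∑ᶠ s ∈ zeros T, ∑ᶠ s' ∈ zeros T, (mult s : ℂ) * (mult s' : ℂ) *
      ((T : ℂ) ^ (α * (s + (starRingEnd ℂ) s' - 1)) *
        (4 / (4 - (s + (starRingEnd ℂ) s' - 1) ^ 2)))

/-- the number of simple zeros on the critical line with ordinate in `(0, T]` -/
noncomputable def Nsimple (T : ℝ) : ℕ := {s ∈ zeros T | s.re = 1 / 2 ∧ mult s = 1}.ncard

/-- the number of distinct zeros with ordinate in `(0, T]` -/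
noncomputable def Ndistinct (T : ℝ) : ℕ := (zeros T).ncard

/-- a window: bounded, even, nonnegative, supported on `[-1/2, 1/2]`, of integral `1` -/
structure Window (w : ℝ → ℝ) : Prop where
  measurable : Measurable w
  nonneg : ∀ x, 0 ≤ w x
  bounded : ∃ M : ℝ, ∀ x, w x ≤ M
  even : ∀ x, w (-x) = w x
  support : ∀ x, 1 / 2 < |x| → w x = 0
  integral : ∫ x, w x = 1

/-- the self-convolution of the window -/
noncomputable def W (w : ℝ → ℝ) (a : ℝ) : ℝ := ∫ t, w t * w (a - t)

/-- the value of the averaged `G` on the pair correlation conjecture -/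
noncomputable def C (w : ℝ → ℝ) (b : ℝ) : ℝ :=
  (W w 0 + 2 * ∫ α in (0 : ℝ)..b, W w (α / b) * min α 1) / b

/-- the deviation of the averaged `G` from its conjectured value -/
noncomputable def D (w : ℝ → ℝ) (b lam T : ℝ) : ℝ :=
  2 / b * ∫ α in lam..b, W w (α / b) * ((G α T).re - min α 1)

lemma zeros_finite (T : ℝ) : (zeros T).Finite := H370.zeta_zeros_finite T

lemma Z0_eq (T : ℝ) : H343.ZSide.Z0 T = (zeros_finite T).toFinset := rfl

lemma G_eq (α T : ℝ) (hT : 0 < T) :
    G α T = ((X T : ℝ) : ℂ)⁻¹ *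
      H343.PPair H343.kW (α * Real.log T) (H343.ZSide.Z0 T) H343.ZSide.mz := by
  classical
  unfold G H343.PPair
  rw [finsum_mem_eq_finite_toFinset_sum _ (zeros_finite T), Z0_eq]
  congr 1
  apply Finset.sum_congr rfl
  intro s _
  rw [finsum_mem_eq_finite_toFinset_sum _ (zeros_finite T)]
  apply Finset.sum_congr rfl
  intro s' _
  have hT0 : (T : ℂ) ≠ 0 := by exact_mod_cast hT.ne'
  rw [Complex.cpow_def_of_ne_zero hT0, ← Complex.ofReal_log hT.le]
  unfold H343.kW H343.ZSide.mz H370.mult mult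
  push_cast
  congr 2
  congr 1
  ring

lemma re_half (hRH : RiemannHypothesis) {T : ℝ} {s : ℂ} (hs : s ∈ zeros T) : s.re = 1 / 2 := by
  obtain ⟨h1, h2, h3, h4, h5⟩ := hs
  refine hRH s h5 ?_ ?_
  · rintro ⟨n, hn⟩
    rw [hn] at h3
    simp at h3
  · intro h
    rw [h] at h3
    simp at h3

lemma G_eq_F (hRH : RiemannHypothesis) (α T : ℝ) : G α T = F α T := by
  classical
  unfold G F
  rw [finsum_mem_eq_finite_toFinset_sum _ (zeros_finite T),
    finsum_mem_eq_finite_toFinset_sum _ (zeros_finite T)]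
  congr 1
  apply Finset.sum_congr rfl
  intro s hs
  rw [finsum_mem_eq_finite_toFinset_sum _ (zeros_finite T),
    finsum_mem_eq_finite_toFinset_sum _ (zeros_finite T)]
  apply Finset.sum_congr rfl
  intro s' hs'
  have h1 : s.re = 1 / 2 := re_half hRH ((zeros_finite T).mem_toFinset.1 hs)
  have h2 : s'.re = 1 / 2 := re_half hRH ((zeros_finite T).mem_toFinset.1 hs')
  have h3 : s + (starRingEnd ℂ) s' - 1 = I * ((s.im - s'.im : ℝ) : ℂ) := by
    apply Complex.ext
    · simp [h1, h2]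
      norm_num
    · simp
      ring
  rw [h3]
  have h4 : (4 : ℂ) - (I * ((s.im - s'.im : ℝ) : ℂ)) ^ 2 = 4 + ((s.im - s'.im : ℝ) : ℂ) ^ 2 := by
    rw [mul_pow, Complex.I_sq]
    ring
  rw [h4, show (α : ℂ) * (I * ((s.im - s'.im : ℝ) : ℂ)) = I * α * ((s.im - s'.im : ℝ) : ℂ) by ring]

lemma G_re (α T : ℝ) (hT : 0 < T) :
    (G α T).re = H479.U.Wp T (α * Real.log T) / (T / (2 * Real.pi) * Real.log T) := by
  rw [G_eq α T hT, ← Complex.ofReal_inv, Complex.re_ofReal_mul, inv_mul_eq_div]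
  rfl

lemma Window.win {w : ℝ → ℝ} (hw : Window w) : H479.U.Win w :=
  ⟨hw.1, hw.2, hw.3, hw.4, hw.5, hw.6⟩

lemma D_eq (w : ℝ → ℝ) (b lam T : ℝ) (hT : 0 < T) : D w b lam T = H479.U.Dw w b lam T := by
  unfold D H479.U.Dw
  simp_rw [G_re _ _ hT]
  rfl

lemma Ns_eq (T : ℝ) : (Nsimple T : ℝ) = H479.U.Nsc T := by
  classical
  unfold Nsimple H479.U.Nsc
  rw [← Set.ncard_coe_finset]
  congr 2
  ext s
  simp only [Finset.coe_filter, Z0_eq, Set.Finite.mem_toFinset]
  rfl

lemma Nd_eq (T : ℝ) : (Ndistinct T : ℝ) = H479.U.Ndi T := by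
  classical
  unfold Ndistinct H479.U.Ndi
  rw [← Set.ncard_coe_finset]
  congr 2
  ext s
  simp only [Z0_eq, Set.Finite.coe_toFinset]

/-- **Pair correlation and the zeros on the critical line.** -/
theorem result :
    -- the triangular window
    (∀ b lam ε : ℝ, 1 ≤ b → 0 ≤ lam → lam < 1 → 0 < ε → ∃ T₀ : ℝ, ∀ T : ℝ, T₀ ≤ T →
      (1 - 1 / (3 * b ^ 2) -
        2 / b * (∫ α in lam..b, (1 - α / b) * ((G α T).re - min α 1)) - ε) * X T ≤ Nsimple T ∧
      (1 - 1 / (6 * b ^ 2) -
        1 / b * (∫ α in lam..b, (1 - α / b) * ((G α T).re - min α 1)) - ε) * X T ≤ Ndistinct T) ∧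
    -- every window
    (∀ w : ℝ → ℝ, Window w → ∀ b lam ε : ℝ, 0 < b → 0 ≤ lam → lam < 1 → lam ≤ b → 0 < ε →
      ∃ T₀ : ℝ, ∀ T : ℝ, T₀ ≤ T →
        (2 - C w b - D w b lam T - ε) * X T ≤ Nsimple T ∧
        (3 - C w b - D w b lam T - ε) * X T ≤ 2 * Ndistinct T) ∧
    -- Montgomery's function
    (RiemannHypothesis → ∀ α T : ℝ, G α T = F α T) := by
  have key : ∀ w : ℝ → ℝ, Window w → ∀ b lam ε : ℝ, 0 < b → 0 ≤ lam → lam < 1 → lam ≤ b → 0 < ε →
      ∃ T₀ : ℝ, ∀ T : ℝ, T₀ ≤ T →
        (2 - C w b - D w b lam T - ε) * X T ≤ Nsimple T ∧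
        (3 - C w b - D w b lam T - ε) * X T ≤ 2 * Ndistinct T := by
    intro w hw b lam ε hb h0 h1 hlb hε
    obtain ⟨T0, hT0, h⟩ := H479.U.main_w hw.win b lam ε hb h0 h1 hlb hε
    refine ⟨T0, fun T hT => ?_⟩
    have hTpos : 0 < T := by linarith
    rw [D_eq w b lam T hTpos, Ns_eq, Nd_eq]
    exact h T hT
  refine ⟨?_, key, G_eq_F⟩
  intro b lam ε hb h0 h1 hε
  have hb0 : 0 < b := by linarith
  have hw0 : Window H479.U.w0 := ⟨H479.U.w0_win.1, H479.U.w0_win.2, H479.U.w0_win.3,
    H479.U.w0_win.4, H479.U.w0_win.5, H479.U.w0_win.6⟩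
  obtain ⟨T0, h⟩ := key H479.U.w0 hw0 b lam ε hb0 h0 h1 (by linarith) hε
  refine ⟨max T0 10, fun T hT => ?_⟩
  obtain ⟨k1, k2⟩ := h T ((le_max_left _ _).trans hT)
  have hT10 : 10 ≤ T := (le_max_right _ _).trans hT
  have hX : 0 ≤ X T := by
    have h1 : 0 ≤ Real.log T := Real.log_nonneg (by linarith)
    have h2 := Real.pi_pos
    unfold X
    positivity
  have eC : C H479.U.w0 b = 1 + 1 / (3 * b ^ 2) := H479.U.Cw_w0 hb
  have eD : D H479.U.w0 b lam T =
      2 / b * ∫ α in lam..b, (1 - α / b) * ((G α T).re - min α 1) := by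
    unfold D
    congr 1
    apply intervalIntegral.integral_congr
    intro α hα
    rw [Set.uIcc_of_le (by linarith)] at hα
    simp only
    have : W H479.U.w0 (α / b) = 1 - α / b :=
      H479.U.WW_w0 (div_nonneg (by linarith [hα.1]) hb0.le) ((div_le_one hb0).2 hα.2)
    rw [this]
  rw [eC, eD] at k1 k2
  constructor
  · refine le_trans (le_of_eq ?_) k1
    ring
  · obtain ⟨J, hJ⟩ : ∃ J : ℝ, J = ∫ α in lam..b, (1 - α / b) * ((G α T).re - min α 1) := ⟨_, rfl⟩
    rw [← hJ] at k2 ⊢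
    have e1 : (3 - (1 + 1 / (3 * b ^ 2)) - 2 / b * J - ε) * X T =
        2 * ((1 - 1 / (6 * b ^ 2) - 1 / b * J - ε) * X T) + ε * X T := by
      field_simp
      ring
    rw [e1] at k2
    have := mul_nonneg hε.le hX
    linarith

end Pool.Agent.Results.MP_8958e8_nt.PairCorrelationForcesLine
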