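import Pool.Agent.H444.Rig
import Pool.Graph.R_pool_sql_team_seeded_1acbe0a2.Y24.Near

set_option autoImplicit false

/-!
# Number rigidity of the zeros of zeta at the scale of the mean spacing, unconditionally

No hypothesis is assumed; the zeros may be on or off the critical line and are counted with
multiplicity. For every window length `ℓ` and every `ε > 0` there are `M ≥ ℓ` and an even, slowly
varying kernel `h` (`|h| ≤ 1`, `h ≥ 1 - ε` on `[-ℓ, ℓ]`, Lipschitz constant `ε`), not depending on the
height, with the following property. In every interval `[t₀, t₀ + H]`, `T ≤ t₀ ≤ 2T`,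
`T / log T ≤ H ≤ T / 2`, for all `t` outside a set of measure `ε H`, and for `t` equal to the ordinate
of any one of the zeros of this interval with at most `ε N` exceptions, the following holds. For EVERY
set `S` of zeros with ordinates within `ℓ` mean spacings of `t`, the number of the elements of `S` is
equal up to `ε` to minus the sum of `h` over the zeros within `M` mean spacings of `t` which do not
belong to `S`. So the number of the zeros in a window is determined by the zeros outside the window
(number rigidity in the sense of Ghosh and Peres, a property of the sine process of the pair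
correlation conjecture), and this holds also seen from a zero.

Proof. `Z(t) = ∑ K(L (z - t)) exp(-(z - t)² / 2)` over the zeros `1/2 + i z`, `z` complex,
`K` the transform of a test function `φ` on `(-μ, μ)`, has by the unconditional form of Montgomery's
theorem the mean square `φ(0)² + ∫ |α| φ(α)² dα`. With `φ` a mean of `n` bumps at the scales `r 4^(-j)`
this is at most `3 / (2 n)` although `K(0) = 1`. Replacing `z` by its real part costs
`O(r ∑ y² exp(3 r y))`, `y = L |β - 1/2|`: the terms linear in `y` cancel in the pairs `ρ, 1 - ρ̄`, and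
the sum is bounded by the density theorem; so the cost tends to `0` with `r`. For the zeros as centres one
averages over `t` in an interval of the length of a mean spacing; that few zeros are lost follows
from the uniform integrability of the number of zeros in such an interval, which is proved in the same
way with the Fejer kernel.
-/

namespace Pool.Agent.Results.MP_8958e8_nt.UnconditionalNumberRigidity

open MeasureTheory

/-- the nontrivial zeros of the Riemann zeta function -/
def zeros : Set ℂ := {ρ | riemannZeta ρ = 0 ∧ 0 < ρ.re ∧ ρ.re < 1}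

/-- the multiplicity of a zero -/
noncomputable def mult (ρ : ℂ) : ℕ := analyticOrderNatAt riemannZeta ρ

/-- the position of the ordinate of `ρ` relative to `t`, in units of the mean spacing
`2 π / log T` -/
noncomputable def pos (T t : ℝ) (ρ : ℂ) : ℝ := (ρ.im - t) * Real.log T / (2 * Real.pi)

/-- the zeros whose ordinate is within `x` mean spacings of `t` -/
def near (T t x : ℝ) : Set ℂ := {ρ | ρ ∈ zeros ∧ |pos T t ρ| ≤ x}

/-- the number of the elements of a set of zeros, with multiplicity -/
noncomputable def num (S : Set ℂ) : ℝ := ∑ᶠ ρ ∈ S, (mult ρ : ℝ)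

/-- Rigidity at `t`: for every set `S` of zeros within `ℓ` mean spacings of `t`, the number of its
elements is, up to `ε`, minus the sum of `h` over the zeros within `M` mean spacings of `t` which are
not in `S`. -/
def RigidAt (ℓ ε M : ℝ) (h : ℝ → ℝ) (T t : ℝ) : Prop :=
  ∀ S ⊆ near T t ℓ, |num S + ∑ᶠ ρ ∈ near T t M \ S, (mult ρ : ℝ) * h (pos T t ρ)| ≤ ε

/-- **Number rigidity of the zeros of zeta at the scale of the mean spacing, unconditionally**:
for all `t` of any interval `[t₀, t₀ + H]` outside a set of measure `ε H`, and at the ordinates of all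
but a proportion `ε` of the zeros in this interval. The sets of zeros which occur are finite. -/
theorem result (ℓ ε : ℝ) (hε : 0 < ε) :
    (∀ Y : ℝ, {ρ : ℂ | ρ ∈ zeros ∧ 0 < ρ.im ∧ ρ.im ≤ Y}.Finite) ∧
    ∃ (M : ℝ) (h : ℝ → ℝ), ℓ ≤ M ∧ (∀ x, h (-x) = h x) ∧ (∀ x, |h x| ≤ 1) ∧
      (∀ x y, |h x - h y| ≤ ε * |x - y|) ∧ (∀ x, |x| ≤ ℓ → 1 - ε ≤ h x) ∧
      ∃ T₀ : ℝ, ∀ T : ℝ, T₀ ≤ T →
        (∀ t : ℝ, T ≤ t → (near T t M).Finite ∧ ∀ ρ ∈ near T t M, 0 < ρ.im) ∧
        ∀ H : ℝ, T / Real.log T ≤ H → H ≤ T / 2 → ∀ t₀ : ℝ, T ≤ t₀ → t₀ ≤ 2 * T →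
          volume {t : ℝ | t₀ ≤ t ∧ t ≤ t₀ + H ∧ ¬ RigidAt ℓ ε M h T t} ≤ ENNReal.ofReal (ε * H) ∧
          num {ρ : ℂ | ρ ∈ zeros ∧ t₀ < ρ.im ∧ ρ.im ≤ t₀ + H ∧ ¬ RigidAt ℓ ε M h T ρ.im} ≤
            ε * num {ρ : ℂ | ρ ∈ zeros ∧ t₀ < ρ.im ∧ ρ.im ≤ t₀ + H} := by
  have hfin : ∀ Y : ℝ, {ρ : ℂ | ρ ∈ zeros ∧ 0 < ρ.im ∧ ρ.im ≤ Y}.Finite := by
    intro Y
    refine (Pool.Agent.Y24.Near.Z_fin Y).subset ?_
    rintro ρ ⟨⟨h1, h2, h3⟩, h4, h5⟩
    exact ⟨h1, h2, h3, h4, h5⟩
  refine ⟨hfin, ?_⟩
  obtain ⟨M, h, h1, h2, h3, h4, h5, T₀, h6⟩ := Pool.Agent.H444.rigidity ℓ ε hε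
  obtain ⟨T₁, hT₁⟩ := (Real.tendsto_log_atTop.eventually_ge_atTop
    (2 * Real.pi * M + 1)).exists_forall_of_atTop
  refine ⟨M, h, h1, h2, h3, h4, h5, max T₀ (max T₁ 3), fun T hT => ⟨fun t ht => ?_, ?_⟩⟩
  · have hT1 : T₁ ≤ T := ((le_max_left _ _).trans (le_max_right _ _)).trans hT
    have hT3 : 3 ≤ T := ((le_max_right _ _).trans (le_max_right _ _)).trans hT
    have hL := hT₁ T hT1
    have hL0 : 0 < Real.log T := Real.log_pos (by linarith)
    have hpi := Real.pi_pos
    have key : ∀ ρ ∈ near T t M, |ρ.im - t| ≤ 1 := by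
      rintro ρ ⟨_, hρ⟩
      unfold pos at hρ
      rw [abs_div, abs_mul, abs_of_pos hL0, abs_of_pos (by positivity : 0 < 2 * Real.pi),
        div_le_iff₀ (by positivity)] at hρ
      by_contra hcon
      push Not at hcon
      have h7 : 1 * Real.log T < |ρ.im - t| * Real.log T := by gcongr
      linarith
    refine ⟨(hfin (t + 1)).subset fun ρ hρ => ?_, fun ρ hρ => ?_⟩
    · have := abs_le.mp (key ρ hρ)
      exact ⟨hρ.1, by linarith [this.1], by linarith [this.2]⟩
    · have := abs_le.mp (key ρ hρ)
      linarith [this.1]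
  · intro H hH1 hH2 t₀ ht1 ht2
    exact h6 T ((le_max_left _ _).trans hT) H hH1 hH2 t₀ ht1 ht2

end Pool.Agent.Results.MP_8958e8_nt.UnconditionalNumberRigidity
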